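import Pool.Agent.R715.TypeExample

set_option autoImplicit false

/-!
# The cancellation law fails for a proper invariant subalgebra

Let `X = ℤ`, let `G` be the group of permutations of `ℤ` generated by `x ↦ x + n` and the
transpositions, and let `𝒜` be the algebra of the subsets of `ℤ` which eventually contain or
eventually avoid both `+∞` and `-∞`; it is `G`-invariant and proper.  For `α = [{x ≥ 0}]` and
`β = [{x ≥ 1}]` one has `m α = m β` if and only if `n` divides `m`.

Proof.  All points have the same type `p`, and `α = β + p`.  The translation by `n` maps `{x ≥ 1}`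
onto `{x ≥ n + 1}`, so `β = β + n p` and `n α = n β + n p = n β`.  On the other hand the number
`Σ_x (1_A(x) - 1_{A_0}(x)) mod n`, where `A_0 ∈ {∅, {x ≥ 0}, {x < 0}, ℤ}` is the set with the same
ends as `A`, is a `G`-invariant finitely additive function on `𝒜`.  It vanishes on `{x ≥ 0}` and is
`-1` on `{x ≥ 1}`.
-/

namespace Pool.Agent.Results.MP_3fd8c4_al.CancellationFails

open Pool.Agent.R715.Equi

/-- For every `n ≥ 2` there are a group `G` acting on a countable set `X` (here `G` is a group of
permutations of `ℤ`), a proper `G`-invariant subalgebra `𝒜` of `P(X)` and two types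
`α ≠ β` in the type semigroup `𝒮(𝒜)` such that `m α = m β` holds exactly for the multiples `m` of
`n`; in particular `n α = n β` and the cancellation law fails in `𝒮(𝒜)`. -/
theorem result (n : ℕ) (hn : 2 ≤ n) :
    ∃ (G : Subgroup (Equiv.Perm ℤ)) (𝒜 : InvSubalgebra G ℤ), 𝒜.sets ≠ Set.univ ∧
      ∃ α β : Types 𝒜, α ≠ β ∧ ∀ m : ℕ, m • α = m • β ↔ n ∣ m := by
  refine ⟨grp n, alg n, not_all n, tIci n 0, tIci n 1, ?_, ?_⟩
  · intro h
    have h1 : (1 : ℕ) • tIci n 0 = (1 : ℕ) • tIci n 1 := by rw [h]
    have h2 := Nat.le_of_dvd one_pos (main_ne n h1)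
    omega
  · intro m
    refine ⟨main_ne n, ?_⟩
    rintro ⟨k, rfl⟩
    exact main_eq n (by omega) k

end Pool.Agent.Results.MP_3fd8c4_al.CancellationFails
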